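import Pool.Agent.Helper12.TS.StB
import Pool.Agent.Helper51.AJ.Basic

/-!
# Project TS (MP_d63854_co): case alpha, links
-/

set_option autoImplicit false

namespace Pool.Agent.Helper86.TS

open Pool.Agent.Helper12.TS
open Pool.Agent.Helper51.AJ (IsMinor Planar Apex ExMinor Con Tch tch_mono)
open Pool.Agent.Helper12.NK (rst Kc add)

variable {V : Type}

/-- the vertices reachable from `x` inside `S` -/
private def cc (H : SimpleGraph V) (S : Set V) (x : V) : Set V :=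
  {z | Relation.ReflTransGen (fun a b => H.Adj a b ∧ b ∈ S) x z}

private theorem cc_self (H : SimpleGraph V) (S : Set V) (x : V) : x ∈ cc H S x :=
  Relation.ReflTransGen.refl

private theorem cc_closed {H : SimpleGraph V} {S : Set V} {x a b : V} (ha : a ∈ cc H S x)
    (h : H.Adj a b) (hb : b ∈ S) : b ∈ cc H S x :=
  Relation.ReflTransGen.tail ha ⟨h, hb⟩

private theorem cc_sub {H : SimpleGraph V} {S : Set V} {x : V} (hx : x ∈ S) : cc H S x ⊆ S := by
  intro z hz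
  have hz' : Relation.ReflTransGen (fun a b => H.Adj a b ∧ b ∈ S) x z := hz
  induction hz' with
  | refl => exact hx
  | tail _ h _ => exact h.2

private theorem cc_con (H : SimpleGraph V) (S : Set V) (x : V) : Con H (cc H S x) := by
  have key : ∀ z, Relation.ReflTransGen (fun a b => H.Adj a b ∧ b ∈ S) x z →
      ∃ hz : z ∈ cc H S x, (H.induce (cc H S x)).Reachable ⟨x, cc_self H S x⟩ ⟨z, hz⟩ := by
    intro z hz
    induction hz with
    | refl => exact ⟨cc_self H S x, SimpleGraph.Reachable.refl _⟩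
    | @tail b c _ h ih =>
      obtain ⟨hb, hr⟩ := ih
      have hc : c ∈ cc H S x := cc_closed hb h.1 h.2
      refine ⟨hc, hr.trans ?_⟩
      have hadj : (H.induce (cc H S x)).Adj ⟨b, hb⟩ ⟨c, hc⟩ := h.1
      exact hadj.reachable
  have hne : Nonempty (cc H S x) := ⟨⟨x, cc_self H S x⟩⟩
  refine ⟨fun a b => ?_⟩
  obtain ⟨_, ha⟩ := key a.1 a.2
  obtain ⟨_, hb⟩ := key b.1 b.2
  exact ha.symm.trans hb

private theorem con_closed {H : SimpleGraph V} {T C : Set V} (hT : Con H T) {x : V} (hx : x ∈ T)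
    (hC : x ∈ C) (h : ∀ a ∈ T, a ∈ C → ∀ b ∈ T, H.Adj a b → b ∈ C) : T ⊆ C := by
  intro z hz
  have hr : (H.induce T).Reachable ⟨x, hx⟩ ⟨z, hz⟩ := hT.preconnected _ _
  rw [SimpleGraph.reachable_iff_reflTransGen] at hr
  have key : ∀ w : T, Relation.ReflTransGen (H.induce T).Adj ⟨x, hx⟩ w → w.1 ∈ C := by
    intro w hw
    induction hw with
    | refl => exact hC
    | @tail b c _ hbc ih => exact h b.1 b.2 ih c.1 c.2 hbc
  exact key _ hr

/-- APU. -/
theorem hAPU : StPTN → StCMP → StMDQ → StAPU := by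
  intro _ _ hMDQ V ι _ _ G A T Γ φ ρ hAT hT hM htch
  have hTne : T.Nonempty := by
    rw [← Set.ncard_pos (Set.toFinite T)]
    omega
  obtain ⟨_, _, m3, m4, m5, m6, m7⟩ := hMDQ V ι G (cl T) A T Γ φ ρ hAT hTne le_rfl hM
  set J : Set ι := {i | ¬ (φ i ∩ T).Nonempty} with hJ
  -- the other indices
  have hIcard : (Jᶜ).ncard ≤ 2 := by
    rw [← hT]
    have hch : ∀ i : ι, ∃ t : V, i ∈ Jᶜ → t ∈ φ i ∩ T := by
      intro i
      by_cases hi : (φ i ∩ T).Nonempty
      · obtain ⟨t, ht⟩ := hi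
        exact ⟨t, fun _ => ht⟩
      · obtain ⟨t, _⟩ := hTne
        exact ⟨t, fun h => absurd hi h⟩
    choose g hg using hch
    refine Set.ncard_le_ncard_of_injOn g (fun i hi => (hg i hi).2) ?_ (Set.toFinite T)
    intro i hi j hj hij
    by_contra hne
    exact Set.disjoint_left.1 (hM.md.2.1 i j hne) (hg i hi).1 (hij ▸ (hg j hj).1)
  obtain ⟨t₀, ht₀⟩ := hTne
  obtain ⟨i₀, hi₀⟩ : ∃ i, t₀ ∈ φ i := by
    have h1 : t₀ ∈ ⋃ i, φ i := by rw [hM.cov]; exact Or.inr ht₀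
    exact Set.mem_iUnion.1 h1
  have hi₀J : i₀ ∉ J := fun h => h ⟨t₀, hi₀, ht₀⟩
  have hJcon : Con Γ J := by
    have h1 := hM.kc.2 Jᶜ (by omega)
    have h2 : Set.univ \ Jᶜ = J := by
      ext i
      simp
    rwa [h2] at h1
  have hZcon : Con G (Zz A ρ) := by
    rw [m3]
    exact m5 J (fun i hi => hi) hJcon
  have hφZ : ∀ i ∈ J, φ i ⊆ Zz A ρ := by
    intro i hi
    rw [m3]
    exact Set.subset_biUnion_of_mem (u := fun i => φ i) hi
  refine ⟨fun x hx t ht => ⟨Zz A ρ, fun _ h => h, hZcon, hx, htch t ht⟩, fun r x hx hxr => ?_⟩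
  by_cases hr : ∃ z ∈ Zz A ρ, ρ z = r
  · obtain ⟨z₀, hz₀, hz₀r⟩ := hr
    have hxZ := hx
    rw [m3, Set.mem_iUnion₂] at hxZ hz₀
    obtain ⟨k, hk, hxk⟩ := hxZ
    obtain ⟨j, hj, hzj⟩ := hz₀
    have hfib : {z | ρ z = r} = φ j := by rw [← hz₀r]; exact m4 j hj z₀ hzj
    have hjk : k ≠ j := by
      rintro rfl
      have h1 : x ∈ {z | ρ z = r} := by rw [hfib]; exact hxk
      exact hxr h1
    have hkS : k ∈ J \ {j} := ⟨hk, hjk⟩
    set K := cc Γ (J \ {j}) k with hK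
    have hKS : K ⊆ J \ {j} := cc_sub hkS
    have hKc : Con Γ K := cc_con Γ (J \ {j}) k
    have hkK : k ∈ K := cc_self Γ _ k
    -- an edge leaving `K`
    have hj1 : Con Γ (Set.univ \ {j}) := hM.kc.2 {j} (by rw [Set.ncard_singleton]; omega)
    have hex : ∃ l ∈ K, ∃ m, m ≠ j ∧ m ∉ K ∧ Γ.Adj l m := by
      by_contra hcon
      push Not at hcon
      have hsub : Set.univ \ {j} ⊆ K := con_closed hj1 (x := k) ⟨trivial, hjk⟩ hkK
        (fun a _ ha b hb hab => by
          by_contra hb'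
          exact hcon a ha b hb.2 hb' hab)
      have h2 : i₀ ∈ K := hsub ⟨trivial, fun h => hi₀J (by rw [h]; exact hj)⟩
      exact hi₀J (hKS h2).1
    obtain ⟨l, hl, m, hmj, hmK, hlm⟩ := hex
    have hmJ : m ∉ J := fun h => hmK (cc_closed hl hlm ⟨h, hmj⟩)
    have hmI : (φ m ∩ T).Nonempty := by
      by_contra h
      exact hmJ h
    refine ⟨⋃ i ∈ K, φ i, ?_, m5 K (fun i hi => (hKS hi).1) hKc, ?_, ?_⟩
    · intro z hz
      rw [Set.mem_iUnion₂] at hz
      obtain ⟨i, hi, hzi⟩ := hz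
      refine ⟨hφZ i (hKS hi).1 hzi, fun h => ?_⟩
      have h3 : z ∈ φ j := by rw [← hfib]; exact h
      exact Set.disjoint_left.1 (hM.md.2.1 i j (hKS hi).2) hzi h3
    · exact Set.mem_iUnion₂.2 ⟨k, hkK, hxk⟩
    · exact tch_mono (m6 l m (hKS hl).1 hlm) (Set.subset_biUnion_of_mem (u := fun i => φ i) hl)
        (m7 m hmI)
  · push Not at hr
    refine ⟨Zz A ρ, fun z hz => ⟨hz, hr z hz⟩, hZcon, hx, ?_⟩
    refine tch_mono (htch t₀ ht₀) (fun _ h => h) ?_
    intro z hz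
    have hz' : ρ z = t₀ := hz
    show ρ z ∈ T
    rw [hz']
    exact ht₀

end Pool.Agent.Helper86.TS
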