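import Pool.Agent.Helper12.TS.StB
import Pool.Agent.Helper45.NK.M_PAR
import Pool.Agent.Helper51.AJ.Basic

/-!
# Project TS (MP_d63854_co): Menger's theorem for two paths
-/

set_option autoImplicit false

namespace Pool.Agent.Helper86.TS

open Pool.Agent.Helper12.TS
open Pool.Agent.Helper51.AJ (IsMinor Planar Apex ExMinor Con Tch con_nonempty con_singleton con_union)
open Pool.Agent.Helper12.NK (rst Kc add)

variable {V : Type}

/-- the vertices reachable from `x` inside `S` -/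
private def cc (H : SimpleGraph V) (S : Set V) (x : V) : Set V :=
  {z | Relation.ReflTransGen (fun a b => H.Adj a b ∧ b ∈ S) x z}

private theorem cc_self (H : SimpleGraph V) (S : Set V) (x : V) : x ∈ cc H S x :=
  Relation.ReflTransGen.refl

private theorem cc_closed {H : SimpleGraph V} {S : Set V} {x a b : V} (ha : a ∈ cc H S x)
    (h : H.Adj a b) (hb : b ∈ S) : b ∈ cc H S x :=
  Relation.ReflTransGen.tail ha ⟨h, hb⟩

private theorem cc_sub {H : SimpleGraph V} {S : Set V} {x : V} (hx : x ∈ S) : cc H S x ⊆ S := by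
  intro z hz
  have hz' : Relation.ReflTransGen (fun a b => H.Adj a b ∧ b ∈ S) x z := hz
  induction hz' with
  | refl => exact hx
  | tail _ h _ => exact h.2

private theorem cc_con (H : SimpleGraph V) (S : Set V) (x : V) : Con H (cc H S x) := by
  have key : ∀ z, Relation.ReflTransGen (fun a b => H.Adj a b ∧ b ∈ S) x z →
      ∃ hz : z ∈ cc H S x, (H.induce (cc H S x)).Reachable ⟨x, cc_self H S x⟩ ⟨z, hz⟩ := by
    intro z hz
    induction hz with
    | refl => exact ⟨cc_self H S x, SimpleGraph.Reachable.refl _⟩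
    | @tail b c _ h ih =>
      obtain ⟨hb, hr⟩ := ih
      have hc : c ∈ cc H S x := cc_closed hb h.1 h.2
      refine ⟨hc, hr.trans ?_⟩
      have hadj : (H.induce (cc H S x)).Adj ⟨b, hb⟩ ⟨c, hc⟩ := h.1
      exact hadj.reachable
  have hne : Nonempty (cc H S x) := ⟨⟨x, cc_self H S x⟩⟩
  refine ⟨fun a b => ?_⟩
  obtain ⟨_, ha⟩ := key a.1 a.2
  obtain ⟨_, hb⟩ := key b.1 b.2
  exact ha.symm.trans hb

private theorem con_closed {H : SimpleGraph V} {T C : Set V} (hT : Con H T) {x : V} (hx : x ∈ T)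
    (hC : x ∈ C) (h : ∀ a ∈ T, a ∈ C → ∀ b ∈ T, H.Adj a b → b ∈ C) : T ⊆ C := by
  intro z hz
  have hr : (H.induce T).Reachable ⟨x, hx⟩ ⟨z, hz⟩ := hT.preconnected _ _
  rw [SimpleGraph.reachable_iff_reflTransGen] at hr
  have key : ∀ w : T, Relation.ReflTransGen (H.induce T).Adj ⟨x, hx⟩ w → w.1 ∈ C := by
    intro w hw
    induction hw with
    | refl => exact hC
    | @tail b c _ hbc ih => exact h b.1 b.2 ih c.1 c.2 hbc
  exact key _ hr

private theorem con_congr {H K : SimpleGraph V} {T : Set V}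
    (h : ∀ a ∈ T, ∀ b ∈ T, H.Adj a b → K.Adj a b) (hT : Con H T) : Con K T := by
  have hle : H.induce T ≤ K.induce T := fun a b hab => h a.1 a.2 b.1 b.2 hab
  exact SimpleGraph.Connected.mono hle hT

private theorem con_inter {H : SimpleGraph V} {S T : Set V} (hS : Con H S) (hT : Con H T) {z : V}
    (h1 : z ∈ S) (h2 : z ∈ T) : Con H (S ∪ T) :=
  H.induce_union_connected hS.preconnected hT.preconnected ⟨z, h1, h2⟩

/-- `H₀` contains all edges of `H` except perhaps `x y` -/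
private def Ed (H H₀ : SimpleGraph V) (x y : V) : Prop :=
  ∀ a b, H.Adj a b → H₀.Adj a b ∨ (a = x ∧ b = y) ∨ (a = y ∧ b = x)

private theorem Ed.swap {H H₀ : SimpleGraph V} {x y : V} (h : Ed H H₀ x y) : Ed H H₀ y x := by
  intro a b hab
  rcases h a b hab with h1 | h1 | h1
  · exact Or.inl h1
  · exact Or.inr (Or.inr h1)
  · exact Or.inr (Or.inl h1)

private theorem con_del {H H₀ : SimpleGraph V} {x y : V} (h : Ed H H₀ x y) {T : Set V}
    (hT : Con H T) (hx : x ∉ T) : Con H₀ T := by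
  refine con_congr (fun a ha b hb hab => ?_) hT
  rcases h a b hab with h1 | ⟨h1, _⟩ | ⟨_, h1⟩
  · exact h1
  · exact absurd (h1 ▸ ha) hx
  · exact absurd (h1 ▸ hb) hx

/-- `v` and everything linked to `U` outside `v` -/
private def side (H₀ : SimpleGraph V) (Φ : Set V) (v : V) (U : Set V) : Set V :=
  {z | z = v ∨ ∃ T ⊆ Φ \ {v}, Con H₀ T ∧ z ∈ T ∧ (T ∩ U).Nonempty}

private theorem side_sub {H₀ : SimpleGraph V} {Φ : Set V} {v : V} {U : Set V} (hv : v ∈ Φ) :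
    side H₀ Φ v U ⊆ Φ := by
  rintro z (rfl | ⟨T, hT, _, hz, _⟩)
  · exact hv
  · exact (hT hz).1

private theorem side_inter {H₀ : SimpleGraph V} {Φ : Set V} {v : V} {U E : Set V}
    (hs : ∀ T ⊆ Φ \ {v}, Con H₀ T → (T ∩ U).Nonempty → ¬ (T ∩ E).Nonempty) {z : V}
    (h1 : z ∈ side H₀ Φ v U) (h2 : z ∈ side H₀ Φ v E) : z = v := by
  rcases h1 with h1 | ⟨T, hT, hTc, hzT, u, hu1, hu2⟩
  · exact h1
  · rcases h2 with h2 | ⟨S, hS, hSc, hzS, e, he1, he2⟩
    · exact h2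
    · exact absurd ⟨e, Or.inr he1, he2⟩ (hs (T ∪ S) (Set.union_subset hT hS) (con_inter hTc hSc hzT hzS)
        ⟨u, Or.inl hu1, hu2⟩)

/-- step (3) of the proof -/
private theorem step3 {H H₀ : SimpleGraph V} {x y v : V} {Φ U E : Set V} (hed : Ed H H₀ x y)
    (hyv : y ≠ v)
    (hs : ∀ T ⊆ Φ \ {v}, Con H₀ T → (T ∩ U).Nonempty → ¬ (T ∩ E).Nonempty)
    (hM : ∀ w, ∃ T ⊆ Φ \ {w}, Con H T ∧ (T ∩ U).Nonempty ∧ (T ∩ E).Nonempty)
    (hx : x ∈ side H₀ Φ v U) (hy : y ∈ side H₀ Φ v E) (w : V) :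
    ∃ T ⊆ side H₀ Φ v U \ {w}, Con H₀ T ∧ (T ∩ U).Nonempty ∧ (T ∩ {v, x}).Nonempty := by
  obtain ⟨T, hT, hTc, ⟨u, huT, huU⟩, e, heT, heE⟩ := hM w
  have huw : u ≠ w := fun h => (hT huT).2 h
  by_cases hu : u = v ∨ u = x
  · refine ⟨{u}, ?_, con_singleton H₀ u, ⟨u, rfl, huU⟩, ⟨u, rfl, ?_⟩⟩
    · rintro z rfl
      refine ⟨?_, huw⟩
      rcases hu with h | h
      · exact Or.inl h
      · rw [h]; exact hx
    · rcases hu with h | h
      · exact Or.inl h
      · exact Or.inr h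
  · push Not at hu
    obtain ⟨huv, hux⟩ := hu
    set S : Set V := T \ {v, x} with hS
    have huS : u ∈ S := ⟨huT, fun h => by
      rcases h with h | h
      · exact huv h
      · exact hux h⟩
    set T' := cc H S u with hT'
    have hT'S : T' ⊆ S := cc_sub huS
    have hxT' : x ∉ T' := fun h => (hT'S h).2 (Or.inr rfl)
    have hvT' : v ∉ T' := fun h => (hT'S h).2 (Or.inl rfl)
    have hT'c : Con H₀ T' := con_del hed (cc_con H S u) hxT'
    have hT'Φ : T' ⊆ Φ \ {v} := fun z hz => ⟨(hT (hT'S hz).1).1, fun h => hvT' (h ▸ hz)⟩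
    have huT' : u ∈ T' := cc_self H S u
    have hT'U : (T' ∩ U).Nonempty := ⟨u, huT', huU⟩
    have hT'side : T' ⊆ side H₀ Φ v U := fun z hz => Or.inr ⟨T', hT'Φ, hT'c, hz, hT'U⟩
    have hT'E : ¬ (T' ∩ E).Nonempty := hs T' hT'Φ hT'c hT'U
    -- an edge leaving `T'`
    have hex : ∃ z ∈ T', ∃ t ∈ T, t ∉ T' ∧ H.Adj z t := by
      by_contra hcon
      push Not at hcon
      have hsub : T ⊆ T' := con_closed hTc huT huT' (fun a _ ha b hb hab => by
        by_contra hb'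
        exact hcon a ha b hb hb' hab)
      exact hT'E ⟨e, hsub heT, heE⟩
    obtain ⟨z, hz, t, ht, htT', hzt⟩ := hex
    have htvx : t = v ∨ t = x := by
      by_contra hcon
      exact htT' (cc_closed hz hzt ⟨ht, fun h => hcon h⟩)
    have hzt₀ : H₀.Adj z t := by
      rcases hed z t hzt with h | ⟨h, _⟩ | ⟨h, _⟩
      · exact h
      · exact absurd (h ▸ hz) hxT'
      · exfalso
        have hzy : z ∈ side H₀ Φ v E := by rw [h]; exact hy
        have := side_inter hs (hT'side hz) hzy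
        exact hyv (h ▸ this)
    have htw : t ≠ w := fun h => (hT ht).2 h
    refine ⟨T' ∪ {t}, ?_, con_union hT'c (con_singleton H₀ t) ⟨z, hz, t, rfl, hzt₀⟩,
      ⟨u, Or.inl huT', huU⟩, ⟨t, Or.inr rfl, ?_⟩⟩
    · rintro q (hq | rfl)
      · exact ⟨hT'side hq, fun h => (hT (hT'S hq).1).2 h⟩
      · refine ⟨?_, htw⟩
        rcases htvx with h | h
        · exact Or.inl h
        · rw [h]; exact hx
    · rcases htvx with h | h
      · exact Or.inl h
      · exact Or.inr h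

/-- the conclusion of StMN2 -/
private def Two (H : SimpleGraph V) (Φ U E : Set V) : Prop :=
  ∃ T ⊆ Φ, ∃ T' ⊆ Φ, Con H T ∧ Con H T' ∧ Disjoint T T' ∧ (T ∩ U).Nonempty ∧ (T ∩ E).Nonempty ∧
    (T' ∩ U).Nonempty ∧ (T' ∩ E).Nonempty

/-- the hypothesis of StMN2 -/
private def Hyp (H : SimpleGraph V) (Φ U E : Set V) : Prop :=
  ∀ v, ∃ T ⊆ Φ \ {v}, Con H T ∧ (T ∩ U).Nonempty ∧ (T ∩ E).Nonempty

private theorem two_vx {H₀ : SimpleGraph V} {Ψ U : Set V} {v x : V} (h : Two H₀ Ψ U {v, x}) :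
    ∃ T ⊆ Ψ, ∃ T' ⊆ Ψ, Con H₀ T ∧ Con H₀ T' ∧ Disjoint T T' ∧ v ∈ T ∧ x ∈ T' ∧
      (T ∩ U).Nonempty ∧ (T' ∩ U).Nonempty := by
  obtain ⟨T, hT, T', hT', c, c', hd, hU, ⟨a, ha, hav⟩, hU', ⟨b, hb, hbv⟩⟩ := h
  have hab : a ≠ b := fun h => Set.disjoint_left.1 hd ha (h ▸ hb)
  rcases hav with rfl | hax
  · rcases hbv with rfl | hbx
    · exact absurd rfl hab
    · have hbx' : b = x := hbx
      subst hbx'
      exact ⟨T, hT, T', hT', c, c', hd, ha, hb, hU, hU'⟩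
  · have hax' : a = x := hax
    subst hax'
    rcases hbv with rfl | hbx
    · exact ⟨T', hT', T, hT, c', c, hd.symm, hb, ha, hU', hU⟩
    · exact absurd (hbx : b = a).symm hab

/-- the end of the proof -/
private theorem final {H H₀ : SimpleGraph V} (hle : H₀ ≤ H) {x y v : V} {Φ U E : Set V}
    (hxy : H.Adj x y) (hed : Ed H H₀ x y) (hv : v ∈ Φ) (hxv : x ≠ v) (hyv : y ≠ v)
    (hs : ∀ T ⊆ Φ \ {v}, Con H₀ T → (T ∩ U).Nonempty → ¬ (T ∩ E).Nonempty)
    (hM : Hyp H Φ U E) (hx : x ∈ side H₀ Φ v U) (hy : y ∈ side H₀ Φ v E)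
    (ih : ∀ Ψ U E : Set V, Ψ.Nonempty → Hyp H₀ Ψ U E → Two H₀ Ψ U E) : Two H Φ U E := by
  have hs' : ∀ T ⊆ Φ \ {v}, Con H₀ T → (T ∩ E).Nonempty → ¬ (T ∩ U).Nonempty :=
    fun T hT hc hE hU => hs T hT hc hU hE
  have hM' : ∀ w, ∃ T ⊆ Φ \ {w}, Con H T ∧ (T ∩ E).Nonempty ∧ (T ∩ U).Nonempty := by
    intro w
    obtain ⟨T, hT, hc, hU, hE⟩ := hM w
    exact ⟨T, hT, hc, hE, hU⟩
  obtain ⟨T₁, hT₁, T₂, hT₂, c1, c2, d1, hv1, hx2, hU1, hU2⟩ :=
    two_vx (ih _ U {v, x} ⟨x, hx⟩ (step3 hed hyv hs hM hx hy))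
  obtain ⟨S₁, hS₁, S₂, hS₂, e1, e2, d2, hv2, hy2, hE1, hE2⟩ :=
    two_vx (ih _ E {v, y} ⟨y, hy⟩ (step3 hed.swap hxv hs' hM' hy hx))
  have up : ∀ {T : Set V}, Con H₀ T → Con H T := fun h => con_congr (fun a _ b _ hab => hle hab) h
  have hΦU : side H₀ Φ v U ⊆ Φ := side_sub hv
  have hΦE : side H₀ Φ v E ⊆ Φ := side_sub hv
  refine ⟨T₁ ∪ S₁, Set.union_subset (hT₁.trans hΦU) (hS₁.trans hΦE), T₂ ∪ S₂,
    Set.union_subset (hT₂.trans hΦU) (hS₂.trans hΦE), con_inter (up c1) (up e1) hv1 hv2,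
    con_union (up c2) (up e2) ⟨x, hx2, y, hy2, hxy⟩, ?_, ?_, ?_, ?_, ?_⟩
  · rw [Set.disjoint_left]
    rintro z (h1 | h1) (h2 | h2)
    · exact Set.disjoint_left.1 d1 h1 h2
    · have hz := side_inter hs (hT₁ h1) (hS₂ h2)
      rw [hz] at h2
      exact Set.disjoint_left.1 d2 hv2 h2
    · have hz := side_inter hs (hT₂ h2) (hS₁ h1)
      rw [hz] at h2
      exact Set.disjoint_left.1 d1 hv1 h2
    · exact Set.disjoint_left.1 d2 h1 h2
  · obtain ⟨u, h1, h2⟩ := hU1; exact ⟨u, Or.inl h1, h2⟩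
  · obtain ⟨u, h1, h2⟩ := hE1; exact ⟨u, Or.inr h1, h2⟩
  · obtain ⟨u, h1, h2⟩ := hU2; exact ⟨u, Or.inl h1, h2⟩
  · obtain ⟨u, h1, h2⟩ := hE2; exact ⟨u, Or.inr h1, h2⟩

/-- the graph without the edge `x y` -/
private def del (H : SimpleGraph V) (x y : V) : SimpleGraph V where
  Adj a b := H.Adj a b ∧ ¬ (a = x ∧ b = y) ∧ ¬ (a = y ∧ b = x)
  symm := ⟨fun _ _ h => ⟨h.1.symm, fun h' => h.2.2 ⟨h'.2, h'.1⟩, fun h' => h.2.1 ⟨h'.2, h'.1⟩⟩⟩
  loopless := ⟨fun _ h => H.ne_of_adj h.1 rfl⟩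

private theorem del_ed (H : SimpleGraph V) (x y : V) : Ed H (del H x y) x y := by
  intro a b hab
  by_cases h1 : a = x ∧ b = y
  · exact Or.inr (Or.inl h1)
  · by_cases h2 : a = y ∧ b = x
    · exact Or.inr (Or.inr h2)
    · exact Or.inl ⟨hab, h1, h2⟩

private theorem del_lt {H : SimpleGraph V} {x y : V} (h : H.Adj x y) : del H x y < H := by
  refine lt_of_le_of_ne (fun a b hab => hab.1) fun he => ?_
  have : (del H x y).Adj x y := by rw [he]; exact h
  exact this.2.1 ⟨rfl, rfl⟩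

private theorem main [Finite V] (H : SimpleGraph V) : ∀ Φ U E : Set V, Φ.Nonempty → Hyp H Φ U E →
    Two H Φ U E := by
  induction H using WellFoundedLT.induction with
  | ind H ih =>
    intro Φ U E hne hM
    by_cases hedge : ∃ x ∈ Φ, ∃ y ∈ Φ, H.Adj x y
    · obtain ⟨x, hx, y, hy, hxy⟩ := hedge
      have hed := del_ed H x y
      have hle : del H x y ≤ H := (del_lt hxy).le
      have ih' := ih (del H x y) (del_lt hxy)
      by_cases hM₀ : Hyp (del H x y) Φ U E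
      · obtain ⟨T, hT, T', hT', c, c', h⟩ := ih' Φ U E hne hM₀
        exact ⟨T, hT, T', hT', con_congr (fun a _ b _ hab => hle hab) c,
          con_congr (fun a _ b _ hab => hle hab) c', h⟩
      · unfold Hyp at hM₀
        push Not at hM₀
        obtain ⟨v, hv₀⟩ := hM₀
        have hs : ∀ T ⊆ Φ \ {v}, Con (del H x y) T → (T ∩ U).Nonempty → ¬ (T ∩ E).Nonempty := by
          intro T hT hc hU hE
          have := hv₀ T hT hc hU
          rw [this] at hE
          exact Set.not_nonempty_empty hE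
        -- `v` is in `Φ`
        have hvΦ : v ∈ Φ := by
          by_contra hv
          obtain ⟨T, hT, hc, hU, hE⟩ := hM x
          have hT2 : T ⊆ Φ \ {v} := fun z hz => ⟨(hT hz).1, fun h => hv (h ▸ (hT hz).1)⟩
          exact hs T hT2 (con_del hed hc (fun h => (hT h).2 rfl)) hU hE
        obtain ⟨T₀, hT₀, hc₀, hU₀, hE₀⟩ := hM v
        have hxT : x ∈ T₀ := by
          by_contra h
          exact hs T₀ hT₀ (con_del hed hc₀ h) hU₀ hE₀
        have hyT : y ∈ T₀ := by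
          by_contra h
          exact hs T₀ hT₀ (con_del hed.swap hc₀ h) hU₀ hE₀
        have hxv : x ≠ v := fun h => (hT₀ hxT).2 h
        have hyv : y ≠ v := fun h => (hT₀ hyT).2 h
        set Tx := cc (del H x y) T₀ x with hTx
        set Ty := cc (del H x y) T₀ y with hTy
        have hTxs : Tx ⊆ T₀ := cc_sub hxT
        have hTys : Ty ⊆ T₀ := cc_sub hyT
        have hcov : T₀ ⊆ Tx ∪ Ty := by
          refine con_closed hc₀ hxT (Or.inl (cc_self _ _ _)) ?_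
          intro a _ ha b hb hab
          rcases hed a b hab with h1 | ⟨_, h1⟩ | ⟨_, h1⟩
          · rcases ha with ha | ha
            · exact Or.inl (cc_closed ha h1 hb)
            · exact Or.inr (cc_closed ha h1 hb)
          · rw [h1]; exact Or.inr (cc_self _ _ _)
          · rw [h1]; exact Or.inl (cc_self _ _ _)
        have hcx : Con (del H x y) Tx := cc_con _ _ _
        have hcy : Con (del H x y) Ty := cc_con _ _ _
        have hTxΦ : Tx ⊆ Φ \ {v} := hTxs.trans hT₀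
        have hTyΦ : Ty ⊆ Φ \ {v} := hTys.trans hT₀
        obtain ⟨e, he, heE⟩ := hE₀
        obtain ⟨u, hu, huU⟩ := hU₀
        rcases hcov hu with hu' | hu'
        · have hTxU : (Tx ∩ U).Nonempty := ⟨u, hu', huU⟩
          have hnE := hs Tx hTxΦ hcx hTxU
          have hTyE : (Ty ∩ E).Nonempty := by
            rcases hcov he with he' | he'
            · exact absurd ⟨e, he', heE⟩ hnE
            · exact ⟨e, he', heE⟩
          exact final hle hxy hed hvΦ hxv hyv hs hM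
            (Or.inr ⟨Tx, hTxΦ, hcx, cc_self _ _ _, hTxU⟩)
            (Or.inr ⟨Ty, hTyΦ, hcy, cc_self _ _ _, hTyE⟩) ih'
        · have hTyU : (Ty ∩ U).Nonempty := ⟨u, hu', huU⟩
          have hnE := hs Ty hTyΦ hcy hTyU
          have hTxE : (Tx ∩ E).Nonempty := by
            rcases hcov he with he' | he'
            · exact ⟨e, he', heE⟩
            · exact absurd ⟨e, he', heE⟩ hnE
          exact final hle hxy.symm hed.swap hvΦ hyv hxv hs hM
            (Or.inr ⟨Ty, hTyΦ, hcy, cc_self _ _ _, hTyU⟩)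
            (Or.inr ⟨Tx, hTxΦ, hcx, cc_self _ _ _, hTxE⟩) ih'
    · push Not at hedge
      obtain ⟨a, ha⟩ := hne
      have hone : ∀ T ⊆ Φ, Con H T → ∀ t ∈ T, T ⊆ {t} := by
        intro T hT hc t ht
        refine con_closed hc ht rfl ?_
        intro p hp _ q hq hpq
        exact absurd hpq (hedge p (hT hp) q (hT hq))
      obtain ⟨T, hT, hc, hU, hE⟩ := hM a
      obtain ⟨t, ht⟩ := con_nonempty hc
      obtain ⟨T', hT', hc', hU', hE'⟩ := hM t
      have h1 := hone T (fun z hz => (hT hz).1) hc t ht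
      refine ⟨T, fun z hz => (hT hz).1, T', fun z hz => (hT' hz).1, hc, hc', ?_, hU, hE, hU', hE'⟩
      rw [Set.disjoint_left]
      intro z hz hz'
      exact (hT' hz').2 (h1 hz)

/-- MN2. -/
theorem hMN2 : StMN2 := fun _ _ H Φ U E hne hM => main H Φ U E hne hM

/-- MEN. -/
theorem hMEN : StMEN := by
  intro V _ H Φ U E hΦ hM
  obtain ⟨T, hT, T', hT', c, c', hd, ⟨u, hu, hu2⟩, ⟨e, he, he2⟩, ⟨u', hu', hu2'⟩, ⟨e', he', he2'⟩⟩ :=
    hMN2 V H Φ U E (con_nonempty hΦ) hM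
  obtain ⟨K, L, hK, hL, hKL, hcov, cK, cL, _⟩ :=
    Pool.Agent.Helper45.NK.hPAR V H Φ T T' hΦ c c' hT hT' hd
  exact ⟨K, L, hcov, cK, cL, hKL, ⟨u, hK hu, hu2⟩, ⟨e, hK he, he2⟩, ⟨u', hL hu', hu2'⟩,
    ⟨e', hL he', he2'⟩⟩

end Pool.Agent.Helper86.TS
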